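import Mathlib
import Pool.Agent.H566.FNf

/-!
# Folner's theorem in the primes

Hardy and Littlewood predict that about `𝔖(h) N / (log N) ^ 2` primes `p ≤ N` are such that `p + h` is prime, where
`𝔖(h) ≤ h / φ(h)` is the singular series, and `𝔖(h)` is close to `h / φ(h)` if `h` is divisible by all small primes. For a set
`A` of primes with `A(N) = α N / log N` elements up to `N` one expects `α ^ 2 𝔖(h) N / (log N) ^ 2` pairs `p, p + h` in `A` for
most `h`, if `A` has no structure. We prove that an arbitrary set `A` of primes has at least so many, up to an arbitrarily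
small constant, for almost all elements `h` of a Bohr set of bounded rank and of the fixed radius `1 / 4`, on all scales
`N / (log N) ^ C ≤ H ≤ η N`, and for finitely many sets of primes (the classes of a colouring, for instance) with the same
Bohr set and the same exceptions.

Outline of the proof. The primes are divided into classes modulo the product `W` of the primes up to `w` and into windows of a
length `L` comparable with `H / W`. The autocorrelation of the normalised indicator function `f` of `A`, averaged over the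
classes and windows, has as its Fourier coefficients the averages `P(r)` of the squares of the absolute values of the Fourier
coefficients of the functions `f`. By Bourgain's restriction estimate, uniformly in `W`, there are few frequencies with
`P(r) ≥ ρ ^ 2 L ^ 2`, for every `ρ`; by smoothing over a Bohr set the sum of `P(r)` over boundedly many frequencies is
`O(L ^ 2)`, with an absolute constant, if `w` is large enough. So there is a level `ρ` in a fixed sequence of levels for which
the frequencies of the next interval of levels have little energy; the frequencies above it define the Bohr set, on which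
they contribute at least `P(0)`; those below the next level are negligible in mean square on the Bohr set. The proof
follows the proof of Folner's theorem; the dependence on the classes modulo `W` is removed by the average over the classes.
-/

set_option autoImplicit false

namespace Pool.Agent.Results.MP_678834_nt.FolnerInThePrimes

/-- The number of elements of `A` up to `N`. -/
noncomputable def count (A : Set ℕ) (N : ℕ) : ℕ := {p : ℕ | p ∈ A ∧ p ≤ N}.ncard

/-- The number of pairs `p, p + h` of elements of `A` up to `N`. -/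
noncomputable def pairs (A : Set ℕ) (N h : ℕ) : ℕ := {p : ℕ | p ∈ A ∧ p + h ∈ A ∧ p + h ≤ N}.ncard

/-- The Bohr set of the positive integers `h ≤ H` for which `h θ` is at a distance of at most `1 / 4` from an integer, for
all `θ ∈ Θ`. -/
def Bohr (Θ : Finset ℝ) (H : ℕ) : Set ℕ := {h : ℕ | 1 ≤ h ∧ h ≤ H ∧ ∀ θ ∈ Θ, ∃ k : ℤ, |(h : ℝ) * θ - k| ≤ 1 / 4}

open Finset in
lemma coe_bohr (Θ : Finset ℝ) (H : ℕ) : (Pool.Agent.H566.bohr4 Θ H : Set ℕ) = Bohr Θ H := by
  classical
  ext h
  rw [mem_coe, Pool.Agent.H566.bohr4, mem_filter, mem_Icc]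
  exact ⟨fun ⟨⟨a, b⟩, c⟩ => ⟨a, b, c⟩, fun ⟨a, b, c⟩ => ⟨⟨a, b⟩, c⟩⟩

/-- **Folner's theorem in the primes.** Let `K` be a natural number and `ε > 0`. There are `d` and `η > 0` with the following
property. Let `C` be given, let `N` be sufficiently large, let `N / (log N) ^ C ≤ H ≤ η N`, and let `A 0, …, A (K - 1)` be
arbitrary sets of primes. Then there is a set `Θ` of at most `d` frequencies such that the Bohr set of the `h ≤ H` with
`‖h θ‖ ≤ 1 / 4` for all `θ ∈ Θ` has at least `η H` elements, and such that for all but at most `ε` times the number of its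
elements the inequality
`#{p : p, p + h ∈ A c, p + h ≤ N} ≥ (h / φ(h)) (A c (N) ^ 2 / N - ε N / (log N) ^ 2)`
holds for all `c`. -/
theorem result (K : ℕ) (ε : ℝ) (hε : 0 < ε) : ∃ d : ℕ, ∃ η : ℝ, 0 < η ∧
    ∀ C : ℕ, ∃ N₀ : ℕ, ∀ N : ℕ, N₀ ≤ N → ∀ H : ℕ, (N : ℝ) / Real.log N ^ C ≤ H → (H : ℝ) ≤ η * N →
      ∀ A : Fin K → Set ℕ, (∀ c, ∀ p ∈ A c, p.Prime) → ∃ Θ : Finset ℝ, Θ.card ≤ d ∧
        η * H ≤ ((Bohr Θ H).ncard : ℝ) ∧
        (({h ∈ Bohr Θ H | ∃ c, (pairs (A c) N h : ℝ) <
            (h : ℝ) / h.totient * ((count (A c) N : ℝ) ^ 2 / N - ε * N / Real.log N ^ 2)}.ncard : ℕ) : ℝ) ≤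
          ε * ((Bohr Θ H).ncard : ℝ) := by
  classical
  obtain ⟨d, η, hη, hmain⟩ := Pool.Agent.H566.folner_primes K ε hε
  refine ⟨d, η, hη, fun C => ?_⟩
  obtain ⟨N₀, h0⟩ := hmain C
  refine ⟨N₀, fun N hN H hH1 hH2 A hA => ?_⟩
  obtain ⟨Θ, hΘ1, hΘ2, hΘ3⟩ := h0 N hN H hH1 hH2 (fun c => (Finset.range (N + 1)).filter (fun p => p ∈ A c)) (by
    intro c p hp
    rw [Finset.mem_filter, Finset.mem_range] at hp
    exact ⟨hA c p hp.2, by omega⟩)
  have hcount : ∀ c, count (A c) N = ((Finset.range (N + 1)).filter (fun p => p ∈ A c)).card := by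
    intro c
    unfold count
    rw [← Set.ncard_coe_finset]
    congr 1
    ext p
    simp only [Finset.coe_filter, Finset.mem_range, Set.mem_ofPred_eq]
    constructor
    · rintro ⟨a, b⟩
      exact ⟨by omega, a⟩
    · rintro ⟨a, b⟩
      exact ⟨b, by omega⟩
  have hpairs : ∀ c h, pairs (A c) N h = (((Finset.range (N + 1)).filter (fun p => p ∈ A c)).filter
      (fun p => p + h ∈ (Finset.range (N + 1)).filter (fun p => p ∈ A c))).card := by
    intro c h
    unfold pairs
    rw [← Set.ncard_coe_finset]
    congr 1
    ext p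
    simp only [Finset.coe_filter, Finset.mem_filter, Finset.mem_range, Set.mem_ofPred_eq]
    constructor
    · rintro ⟨a, b, c⟩
      exact ⟨⟨by omega, a⟩, by omega, b⟩
    · rintro ⟨⟨a, b⟩, c, d⟩
      exact ⟨b, d, by omega⟩
  refine ⟨Θ, hΘ1, ?_, ?_⟩
  · rw [← coe_bohr, Set.ncard_coe_finset]
    exact hΘ2
  · rw [← coe_bohr, Set.ncard_coe_finset]
    have key : {h ∈ (Pool.Agent.H566.bohr4 Θ H : Set ℕ) | ∃ c, (pairs (A c) N h : ℝ) <
            (h : ℝ) / h.totient * ((count (A c) N : ℝ) ^ 2 / N - ε * N / Real.log N ^ 2)} =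
        (((Pool.Agent.H566.bohr4 Θ H).filter (fun h : ℕ => ∃ c,
          (((((Finset.range (N + 1)).filter (fun p => p ∈ A c)).filter
            (fun p => p + h ∈ (Finset.range (N + 1)).filter (fun p => p ∈ A c))).card : ℕ) : ℝ) <
          (h : ℝ) / h.totient * (((((Finset.range (N + 1)).filter (fun p => p ∈ A c)).card : ℕ) : ℝ) ^ 2 / N -
            ε * N / Real.log N ^ 2)) : Finset ℕ) : Set ℕ) := by
      ext h
      rw [Finset.coe_filter, Set.mem_ofPred_eq, Set.mem_ofPred_eq, Finset.mem_coe]
      refine and_congr_right fun _ => ?_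
      refine exists_congr fun c => ?_
      rw [hpairs, hcount]
    rw [key, Set.ncard_coe_finset]
    exact hΘ3

end Pool.Agent.Results.MP_678834_nt.FolnerInThePrimes
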