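import Mathlib
import Pool.Agent.H482.DS.Monk
import Pool.Agent.H482.DS.Gsuk
import Pool.Agent.H482.DU.Pair

/-!
# Prime pairs modulo all but boundedly many primes, uniformly in the difference

For every `ε, δ > 0` there is `M` such that for all `x`, all differences `e ≠ 0` with `|e| ≤ x` and all
sets `A` of integers `n ≤ x` for which `n` and `|n + e|` are both primes, the elements of `A` are
equidistributed modulo all primes `q ≤ x ^ (1 / 2 - δ)` with at most `M` exceptions, with an error of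
`ε` times the order of the expected number of all these `n`.
-/

set_option autoImplicit false

namespace Pool.Agent.Results.MP_678834_nt.PairsModuloLargePrimes

open Finset

/-- Every set `C` of residue classes modulo `q` contains its share of the elements of `A`, up to `E`. -/
def Spread (E : ℝ) (A : Finset ℕ) (q : ℕ) : Prop :=
  ∀ C : Finset ℕ, C ⊆ range q →
    |((A.filter (fun n => n % q ∈ C)).card : ℝ) - (C.card : ℝ) / q * A.card| ≤ E

/-- `A` is spread up to `E` modulo all but at most `M` of the primes `q ≤ y`. -/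
def SpreadBut (M : ℕ) (y E : ℝ) (A : Finset ℕ) : Prop :=
  ∃ S : Finset ℕ, S.card ≤ M ∧ ∀ q : ℕ, q.Prime → (q : ℝ) ≤ y → q ∉ S → Spread E A q

open Pool.Agent.H482.DS in
theorem of_Ea (M x : ℕ) (δ E : ℝ) (A : Finset ℕ)
    (h : (Ea E A ⌊(x : ℝ) ^ (1 / 2 - δ)⌋₊).card ≤ M) :
    SpreadBut M ((x : ℝ) ^ (1 / 2 - δ)) E A := by
  classical
  refine ⟨Ea E A ⌊(x : ℝ) ^ (1 / 2 - δ)⌋₊, h, fun q hq hqy hqS C hC => ?_⟩
  by_contra hcon
  push Not at hcon
  apply hqS
  unfold Ea
  rw [mem_filter, mem_Icc]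
  exact ⟨⟨hq.one_le, Nat.le_floor hqy⟩, hq, C, hC, hcon⟩

/-- **Main theorem.** -/
theorem result (ε δ : ℝ) (hε : 0 < ε) (hδ : 0 < δ) : ∃ M : ℕ,
    ∀ (x : ℕ) (e : ℤ), 2 ≤ x → e ≠ 0 → e.natAbs ≤ x → ∀ A : Finset ℕ, A ⊆ Icc 1 x →
      (∀ n ∈ A, n.Prime ∧ ((n : ℤ) + e).natAbs.Prime) →
      SpreadBut M ((x : ℝ) ^ (1 / 2 - δ))
        (ε * ((e.natAbs : ℝ) / Nat.totient e.natAbs * (x / (Real.log x) ^ 2))) A := by
  obtain ⟨M, h⟩ := Pool.Agent.H482.DU.pair_prime Pool.Agent.H482.DS.monk Pool.Agent.H482.DS.gsuk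
    ε δ hε hδ
  exact ⟨M, fun x e hx he hex A hA hp => of_Ea M x δ _ A (h x hx e he hex A hA hp)⟩

end Pool.Agent.Results.MP_678834_nt.PairsModuloLargePrimes
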