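import Mathlib
import Pool.Agent.H528.ItE

set_option autoImplicit false

/-!
# The parity law for almost all prime pairs and tuples with shifts from arbitrary sparse sets

Let `Λ₂` be the function of Selberg and Bombieri, which counts the primes together with the products of two primes. For
every `k` and `ε` there is a `δ < 1` such that for EVERY set `A` of shifts in `[1, N]` all but `C(|A|, k - 1) N ^ δ` of
the admissible `k`-element sets `H` of shifts from `A` have the following properties. The `n ≤ N` without prime factors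
of the `n + h` below `N ^ ξ`, `ξ ≤ ε`, get the weight `∏_{h ∈ H} Λ₂(n + h)`.

* The total mass is `(2 ^ k + O(ε)) 𝔖(H) N (log N) ^ k`, and for every `i ∈ H` exactly one half of it, up to `ε`, is on
  the `n` for which `n + i` is prime.
* For pairs `H = {i, j}`, with `S = 𝔖(H) N (log N) ^ 2` and the number `π` of the prime pairs `n + i`, `n + j`, `n ≤ N`,
  the mass of the pairs of primes is `π log ^ 4 N + O(ε S)`, the mass of the pairs of semiprimes is THE SAME,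
  and the two masses on the pairs of a prime and a semiprime are both `2 S - π log ^ 4 N + O(ε S)`. So the conjecture
  `π ∼ 𝔖(H) N / (log N) ^ 2` for the prime pairs, the one for the pairs of semiprimes, and those for the pairs of a
  prime and a semiprime are equivalent (up to `ε`) for all but `|A| N ^ δ` pairs of shifts from `A`.
-/

namespace Pool.Agent.Results.MP_678834_nt.ParityLawForPairs

open Finset Filter
open Pool.Agent.H387R2.Uni

/-- the function `Λ₂(m) = ∑_{d ∣ m} μ(d) log² (m / d)` -/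
noncomputable def Lambda2 (m : ℕ) : ℝ :=
  ∑ d ∈ m.divisors, (ArithmeticFunction.moebius d : ℝ) * Real.log ((m : ℝ) / d) ^ 2

open Classical in
/-- the mass of the set `Q`: the sum of `∏_{h ∈ H} Λ₂(n + h)` over the `n ≤ N`, `n ∈ Q`, such that all prime factors of
all the numbers `n + h`, `h ∈ H`, are at least `N ^ ξ` -/
noncomputable def mass (Q : Set ℕ) (H : Finset ℕ) (ξ : ℝ) (N : ℕ) : ℝ :=
  ∑ n ∈ (Icc 1 N).filter (fun n => n ∈ Q ∧ ∀ h ∈ H, ∀ q : ℕ, q.Prime → q ∣ n + h → (N : ℝ) ^ ξ ≤ q),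
    ∏ h ∈ H, Lambda2 (n + h)

/-- the `n` for which among the numbers `n + h`, `h ∈ H`, exactly those with `h ∈ S` are prime -/
def pattern (H S : Finset ℕ) : Set ℕ := {n | ∀ h ∈ H, ((n + h).Prime ↔ h ∈ S)}

open Classical in
/-- the number of the `n ≤ N` with all the `n + h`, `h ∈ H`, prime -/
noncomputable def primeTuples (H : Finset ℕ) (N : ℕ) : ℕ := ((Icc 1 N).filter (fun n => ∀ h ∈ H, (n + h).Prime)).card

open Pool.Agent.Y822 Pool.Agent.Y822.Par3 Pool.Agent.H528.Lam Pool.Agent.H528.AsyL Pool.Agent.H528.It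

lemma ro_iff' {ξ : ℝ} {N m : ℕ} (hN : 1 ≤ N) :
    (∀ q : ℕ, q.Prime → q ∣ m → (N : ℝ) ^ ξ ≤ q) ↔ Ro (zN ξ N) m := by
  constructor
  · intro h1 q hq hqz hqd
    have h3 := zN_lt' (ε₁ := ξ) hN (h1 q hq hqd)
    omega
  · intro h1 q hq hqd
    by_contra h2
    push Not at h2
    exact h1 q hq (le_zN h2) hqd

open Classical in
lemma mass_eq (Q : Set ℕ) (H : Finset ℕ) (ξ : ℝ) (N : ℕ) (hN : 1 ≤ N) :
    mass Q H ξ N = ∑ n ∈ Icc 1 N, (if n ∈ Q then (1 : ℝ) else 0) * ∏ h ∈ H, lw (zN ξ N) (n + h) := by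
  unfold mass
  rw [sum_filter]
  refine sum_congr rfl fun n _ => ?_
  by_cases hQ : n ∈ Q
  · rw [if_pos hQ, one_mul]
    by_cases hr : ∀ h ∈ H, Ro (zN ξ N) (n + h)
    · rw [if_pos ⟨hQ, fun h hh => (ro_iff' hN).2 (hr h hh)⟩]
      refine prod_congr rfl fun h hh => ?_
      unfold lw
      rw [Pool.Agent.H528.Avg.ro_of (hr h hh), one_mul]
      rfl
    · rw [if_neg fun h => hr fun t ht => (ro_iff' hN).1 (h.2 t ht)]
      push Not at hr
      obtain ⟨h, hh, h2⟩ := hr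
      symm
      refine prod_eq_zero hh ?_
      have : ro (zN ξ N) (n + h) = 0 := by unfold ro; rw [if_neg h2]
      unfold lw
      rw [this, zero_mul]
  · rw [if_neg hQ, if_neg (fun h => hQ h.1), zero_mul]

lemma mass_univ (H : Finset ℕ) (ξ : ℝ) (N : ℕ) (hN : 1 ≤ N) :
    mass Set.univ H ξ N = TM (fun _ => 1) (zN ξ N) N H := by
  classical
  rw [mass_eq _ H ξ N hN]
  unfold TM
  refine sum_congr rfl fun n _ => ?_
  rw [if_pos (Set.mem_univ n)]

lemma mass_prime (H : Finset ℕ) (ξ : ℝ) (N i : ℕ) (hN : 1 ≤ N) :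
    mass {n | (n + i).Prime} H ξ N = PM (fun _ => 1) (zN ξ N) N i H := by
  classical
  rw [mass_eq _ H ξ N hN]
  unfold PM
  refine sum_congr rfl fun n _ => ?_
  unfold eP
  rw [one_mul]
  by_cases h : (n + i).Prime
  · rw [if_pos h, if_pos (show n ∈ {n | (n + i).Prime} from h)]
  · rw [if_neg h, if_neg (show n ∉ {n | (n + i).Prime} from h)]

lemma mass_pattern (H S : Finset ℕ) (ξ : ℝ) (N : ℕ) (hN : 1 ≤ N) :
    mass (pattern H S) H ξ N = pm (zN ξ N) N H S := by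
  classical
  rw [mass_eq _ H ξ N hN]
  unfold pm
  refine sum_congr rfl fun n _ => ?_
  by_cases h : ∀ h ∈ H, ((n + h).Prime ↔ h ∈ S)
  · rw [if_pos h, if_pos (show n ∈ pattern H S from h)]
  · rw [if_neg h, if_neg (show n ∉ pattern H S from h)]

open Classical in
theorem result :
    -- the constants are convergent products, positive for admissible sets
    (∀ H : Finset ℕ, HasProd (fun p : Nat.Primes => locT H p) (CT H) ∧ (Adm H → 0 < CT H)) ∧
    -- the values of `Λ₂`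
    ((∀ p : ℕ, p.Prime → Lambda2 p = Real.log p ^ 2) ∧
      (∀ p q : ℕ, p.Prime → q.Prime → p ≠ q → Lambda2 (p * q) = 2 * Real.log p * Real.log q) ∧
      (∀ m : ℕ, 3 ≤ m.primeFactors.card → Lambda2 m = 0)) ∧
    -- the total mass and its marginals
    (∀ k : ℕ, 1 ≤ k → ∀ ε : ℝ, 0 < ε → ∃ δ ξ : ℝ, 0 < δ ∧ δ < 1 ∧ 0 < ξ ∧ ξ ≤ ε ∧
      ∃ N₀ : ℕ, ∀ N : ℕ, N₀ ≤ N → ∀ A : Finset ℕ, (∀ a ∈ A, 1 ≤ a ∧ a ≤ N) →
        (((A.powersetCard k).filter (fun H => Adm H ∧
          ¬ (|mass Set.univ H ξ N - 2 ^ k * CT H * (N * Real.log N ^ k)| ≤ ε * CT H * (N * Real.log N ^ k) ∧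
            ∀ i ∈ H, |mass {n | (n + i).Prime} H ξ N - 2 ^ (k - 1) * CT H * (N * Real.log N ^ k)| ≤
              ε * CT H * (N * Real.log N ^ k)))).card : ℝ) ≤
          A.card.choose (k - 1) * (N : ℝ) ^ δ) ∧
    -- the parity law for pairs
    ∀ ε : ℝ, 0 < ε → ∃ δ ξ : ℝ, 0 < δ ∧ δ < 1 ∧ 0 < ξ ∧ ξ ≤ ε ∧
      ∃ N₀ : ℕ, ∀ N : ℕ, N₀ ≤ N → ∀ A : Finset ℕ, (∀ a ∈ A, 1 ≤ a ∧ a ≤ N) →
        (((A.powersetCard 2).filter (fun H => Adm H ∧
          ¬ (|mass (pattern H ∅) H ξ N - primeTuples H N * Real.log N ^ 4| ≤ ε * CT H * (N * Real.log N ^ 2) ∧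
            |mass (pattern H H) H ξ N - primeTuples H N * Real.log N ^ 4| ≤ ε * CT H * (N * Real.log N ^ 2) ∧
            ∀ i ∈ H, |mass (pattern H {i}) H ξ N -
                (2 * CT H * (N * Real.log N ^ 2) - primeTuples H N * Real.log N ^ 4)| ≤
              ε * CT H * (N * Real.log N ^ 2)))).card : ℝ) ≤
          A.card * (N : ℝ) ^ δ := by
  have habs : ∀ (δ : ℝ) (B k : ℕ), δ < 1 → ∃ N₁ : ℕ, ∀ N : ℕ, N₁ ≤ N → ∀ X : ℝ, 0 ≤ X →
      X * (4 ^ k * ((N : ℝ) ^ δ * Real.log N ^ B)) ≤ X * (N : ℝ) ^ ((1 + δ) / 2) := by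
    intro δ B k hδ
    have e2 := ev_logN (ev_pow_exp B ((1 - δ) / 2) (4 ^ k) (by linarith))
    obtain ⟨N₀, hN₀⟩ := eventually_atTop.1 e2
    refine ⟨max N₀ 1, fun N hN X hX => mul_le_mul_of_nonneg_left ?_ hX⟩
    have h2 := hN₀ N ((le_max_left _ _).trans hN)
    have hN1 : 1 ≤ N := (le_max_right _ _).trans hN
    have hN0 : (0 : ℝ) < N := by exact_mod_cast hN1
    have e3 : (N : ℝ) ^ ((1 + δ) / 2) = (N : ℝ) ^ δ * Real.exp ((1 - δ) / 2 * Real.log N) := by
      rw [mul_comm ((1 - δ) / 2), ← Real.rpow_def_of_pos hN0, ← Real.rpow_add hN0]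
      congr 1
      ring
    rw [e3]
    calc 4 ^ k * ((N : ℝ) ^ δ * Real.log N ^ B) = (N : ℝ) ^ δ * (4 ^ k * Real.log N ^ B) := by ring
      _ ≤ _ := by gcongr
  refine ⟨fun E => ⟨CT_hasProd _, fun hA => ?_⟩, ⟨fun p hp => ?_, fun p q hp hq hpq => ?_, fun m hm => ?_⟩,
    fun k hk ε hε => ?_, fun ε hε => ?_⟩
  · rw [← CT_en]
    apply Pool.Agent.H386R2.HL.singularSeries_pos (en_inj _)
    intro p hp
    rw [nu_en]
    exact hA p hp
  · have h1 : Lambda2 p = L2 p := rfl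
    rw [h1, L2_one_pf hp.one_lt.le hp.primeFactors]
    ring
  · have h1 : Lambda2 (p * q) = L2 (p * q) := rfl
    have h2 : (p * q).primeFactors = {p, q} := by
      rw [Nat.primeFactors_mul hp.ne_zero hq.ne_zero, hp.primeFactors, hq.primeFactors]
      rfl
    rw [h1, L2_two_pf (Nat.mul_pos hp.pos hq.pos) hpq h2]
  · have h1 : Lambda2 m = L2 m := rfl
    rcases Nat.eq_zero_or_pos m with rfl | h0
    · simp at hm
    · rw [h1, L2_three_pf h0 hm]
  · obtain ⟨k, rfl⟩ : ∃ j, k = j + 1 := ⟨k - 1, by omega⟩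
    obtain ⟨δ, hδ1, hδ2, ξ, hξ, hξ8, hξε, B, hB⟩ := marg k ε hε
    obtain ⟨N₁, hN₁⟩ := habs δ B k hδ2
    obtain ⟨N₀, hN₀⟩ := eventually_atTop.1 hB
    refine ⟨(1 + δ) / 2, ξ, by linarith, by linarith, hξ, hξε, max (max N₀ N₁) 1, fun N hN A hA => ?_⟩
    have h1 := hN₀ N ((le_max_left _ _).trans ((le_max_left _ _).trans hN))
    have h2 := hN₁ N ((le_max_right _ _).trans ((le_max_left _ _).trans hN))
    have hN1 : 1 ≤ N := (le_max_right _ _).trans hN
    rw [Nat.add_sub_cancel]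
    refine (h1 A hA _ fun E hE => ?_).trans (h2 _ (Nat.cast_nonneg _))
    rw [mem_filter, mass_univ E ξ N hN1] at hE
    obtain ⟨c1, c2, c3⟩ := hE
    refine ⟨c1, c2, ?_⟩
    by_contra hcon
    push Not at hcon
    apply c3
    refine ⟨hcon.1, fun i hi => ?_⟩
    rw [mass_prime E ξ N i hN1]
    exact hcon.2 i hi
  · obtain ⟨δ, hδ1, hδ2, ξ, hξ, hξ8, hξε, B, hB⟩ := pair_law ε hε
    obtain ⟨N₁, hN₁⟩ := habs δ B 1 hδ2
    obtain ⟨N₀, hN₀⟩ := eventually_atTop.1 hB
    refine ⟨(1 + δ) / 2, ξ, by linarith, by linarith, hξ, hξε, max (max N₀ N₁) 1, fun N hN A hA => ?_⟩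
    have h1 := hN₀ N ((le_max_left _ _).trans ((le_max_left _ _).trans hN))
    have h2 := hN₁ N ((le_max_right _ _).trans ((le_max_left _ _).trans hN))
    have hN1 : 1 ≤ N := (le_max_right _ _).trans hN
    rw [pow_one] at h2
    refine (h1 A hA _ fun E hE => ?_).trans (h2 _ (Nat.cast_nonneg _))
    rw [mem_filter] at hE
    simp only [mass_pattern _ _ ξ N hN1] at hE
    obtain ⟨c1, c2, c3⟩ := hE
    have hpt : (primeTuples E N : ℝ) * Real.log N ^ 4 = Real.log N ^ 4 * (Pool.Agent.H528.Tup.cP N E : ℝ) := by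
      rw [mul_comm]
      congr 1
    rw [hpt] at c3
    refine ⟨c1, c2, ?_⟩
    by_contra hcon
    push Not at hcon
    apply c3
    exact ⟨hcon.1, hcon.2.1, hcon.2.2⟩

end Pool.Agent.Results.MP_678834_nt.ParityLawForPairs
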