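import Pool.Agent.H579.E.FinD

/-!
# Prime pairs `p₁ p₂`, `p₀ = p₁ p₂ + h`: the asymptotic formula for the differences `h` in the residue classes of
EVERY modulus up to `x ^ (1 - ρ)`

Let `0 < κ₁ ≤ κ₂ < ρ ≤ 1 / 5`. For every modulus `q ≤ x ^ (1 - ρ)` (no exceptional moduli), every residue class `a`
modulo `q` such that the greatest common divisor of `a` and `q` is at most a fixed power of `log x`, and ARBITRARY
bounded coefficients `α p₁` on the primes `p₁ ∈ (x ^ κ₁, x ^ κ₂]`, all but at most `x / (q (log x) ^ A)` of the even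
integers `h ≠ 0`, `|h| ≤ x`, `h ≡ a (mod q)`, satisfy the formula of Hardy-Littlewood type

`∑_{p₁ p₂ ≤ x, p₁ p₂ + h prime} α(p₁) log p₂ log (p₁ p₂ + h) = sing(|h|) L(h) ∑_{x ^ κ₁ < p ≤ x ^ κ₂} α(p) / p +
O(x / (log x) ^ B)`, where `L(h)` is the length `x - max(0, -h)` of the interval of the `n ≤ x` with `n + h > 0`.

So both `p₀ - p₁ p₂ = h` and `p₁ p₂ - p₀ = h` are treated, with an asymptotic formula. In particular: if `S` is any set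
of primes from `(x ^ κ₁, x ^ κ₂]` with `∑_{p ∈ S} 1 / p ≥ (log x) ^ (-B)`, then all but at most `x / (q (log x) ^ A)` of
these `h`, `2 |h| ≤ x`, are `p₀ - p₁ p₂` with primes `p₀`, `p₂` and `p₁ ∈ S`, `p₁ p₂ ≤ x`. For two primes only the
level `4 / 5` (and lower bounds instead of an asymptotic formula) are known.

Definitions used: `sing n = 2 C₂ ∏_{p ∣ n, p > 2} (p - 1) / (p - 2)` with `C₂ = ∏_{p > 2} (1 - 1 / (p - 1) ^ 2)`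
(in `Pool.Agent.H560R3.GB`); this is `𝔖(n)` of the problem.
-/

set_option autoImplicit false

namespace Pool.Agent.Results.MP_678834_nt.PrimeTwoPrimesDifferences

open Finset
open Pool.Agent.H560R3.GB (sing)

/-- The primes `p` with `x ^ κ₁ < p ≤ x ^ κ₂`. -/
noncomputable def smallPrimes (x : ℕ) (κ₁ κ₂ : ℝ) : Finset ℕ :=
  (Icc 1 x).filter (fun p => p.Prime ∧ (x : ℝ) ^ κ₁ < p ∧ (p : ℝ) ≤ (x : ℝ) ^ κ₂)

/-- The sum of `α(p₁) log p₂ log p₀` over the representations `h = p₀ - p₁ p₂` by primes with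
`x ^ κ₁ < p₁ ≤ x ^ κ₂` and `p₁ p₂ ≤ x`. -/
noncomputable def weighted (x : ℕ) (κ₁ κ₂ : ℝ) (α : ℕ → ℝ) (h : ℤ) : ℝ :=
  ∑ p₁ ∈ smallPrimes x κ₁ κ₂, α p₁ * ∑ p₂ ∈ (Icc 1 x).filter
    (fun p₂ => p₂.Prime ∧ p₁ * p₂ ≤ x ∧ (((p₁ * p₂ : ℕ) : ℤ) + h).toNat.Prime),
      Real.log p₂ * Real.log (((p₁ * p₂ : ℕ) : ℤ) + h).toNat

/-- The number `x - max(0, -h)` of the integers `1 ≤ n ≤ x` with `n + h ≥ 1` (for `|h| ≤ x`). -/
noncomputable def len (x : ℕ) (h : ℤ) : ℝ := (x : ℝ) - (max 0 (-h) : ℤ)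

/-- The even integers `h ≠ 0`, `|h| ≤ x`, `h ≡ a (mod q)`, for which the asymptotic formula does not hold. -/
noncomputable def exceptional (B x : ℕ) (κ₁ κ₂ : ℝ) (α : ℕ → ℝ) (q : ℕ) (a : ℤ) : Finset ℤ :=
  (Icc (-(x : ℤ)) x).filter (fun h : ℤ => h ≠ 0 ∧ 2 ∣ h ∧ h ≡ a [ZMOD q] ∧
    x / Real.log x ^ B <
      |weighted x κ₁ κ₂ α h - sing h.natAbs * len x h * ∑ p ∈ smallPrimes x κ₁ κ₂, α p / p|)

open Classical in
/-- The even integers `h ≠ 0`, `2 |h| ≤ x`, `h ≡ a (mod q)`, which are not `p₀ - p₁ p₂` with primes `p₀`, `p₂` and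
`p₁ ∈ S`, `p₁ p₂ ≤ x`. -/
noncomputable def missing (x : ℕ) (S : Finset ℕ) (q : ℕ) (a : ℤ) : Finset ℤ :=
  (Icc (-(x : ℤ)) x).filter (fun h : ℤ => h ≠ 0 ∧ 2 * |h| ≤ x ∧ 2 ∣ h ∧ h ≡ a [ZMOD q] ∧
    ¬ ∃ p₀ p₁ p₂ : ℕ, p₀.Prime ∧ p₁ ∈ S ∧ p₂.Prime ∧ p₁ * p₂ ≤ x ∧ (p₀ : ℤ) - p₁ * p₂ = h)

/-- Let `0 < κ₁ ≤ κ₂ < ρ ≤ 1 / 5` and `A`, `B`, `T` be given. For all sufficiently large integers `x`, for every
integer `1 ≤ q ≤ x ^ (1 - ρ)` and every integer `a` with `gcd (a, q) ≤ (log x) ^ T`: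

* for all real coefficients `|α p| ≤ 1` all but at most `x / (q (log x) ^ A)` of the even `h ≠ 0`, `|h| ≤ x`,
  `h ≡ a (mod q)`, satisfy the asymptotic formula with the error term `x / (log x) ^ B`;
* for every set `S` of primes `p` with `x ^ κ₁ < p ≤ x ^ κ₂` and `∑_{p ∈ S} 1 / p ≥ 1 / (log x) ^ B`, all but at most
  `x / (q (log x) ^ A)` of the even `h ≠ 0`, `2 |h| ≤ x`, `h ≡ a (mod q)`, are `p₀ - p₁ p₂` with primes `p₀`, `p₂`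
  and `p₁ ∈ S`, `p₁ p₂ ≤ x`. -/
theorem result (κ₁ κ₂ ρ : ℝ) (h0 : 0 < κ₁) (h01 : κ₁ ≤ κ₂) (h1 : κ₂ < ρ) (h2 : ρ ≤ 1 / 5) (A B T : ℕ) :
    ∃ x₀ : ℕ, ∀ x : ℕ, x₀ ≤ x → ∀ q : ℕ, 1 ≤ q → (q : ℝ) ≤ (x : ℝ) ^ (1 - ρ) → ∀ a : ℤ,
      (Int.gcd a q : ℝ) ≤ Real.log x ^ T →
        (∀ α : ℕ → ℝ, (∀ p, |α p| ≤ 1) →
          ((exceptional B x κ₁ κ₂ α q a).card : ℝ) ≤ x / (q * Real.log x ^ A)) ∧
        ∀ S : Finset ℕ, S ⊆ smallPrimes x κ₁ κ₂ → 1 / Real.log x ^ B ≤ ∑ p ∈ S, 1 / (p : ℝ) →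
          ((missing x S q a).card : ℝ) ≤ x / (q * Real.log x ^ A) := by
  classical
  obtain ⟨N₁, c1⟩ := Pool.Agent.H579.E.diffs h0 h01 h1 h2 A B T
  obtain ⟨N₂, c2⟩ := Pool.Agent.H579.E.repr_fewD h0 h01 h1 h2 A B T
  refine ⟨N₁ + N₂, fun x hx q hq1 hq a ha => ⟨fun α hα => ?_, fun S hS hm => ?_⟩⟩
  · have h3 := c1 x (by omega) α hα q hq1 hq a ha
    simp only [Pool.Agent.H579.E.repD_res] at h3
    exact h3
  · refine c2 x (by omega) S hS hm q hq1 hq a ha _ fun h hh => ?_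
    unfold missing at hh
    rw [mem_filter] at hh
    exact hh.2

end Pool.Agent.Results.MP_678834_nt.PrimeTwoPrimesDifferences
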